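import Pool.Agent.Lib_MP_d3eb25_co.Lower
import Pool.Agent.Lib_MP_d3eb25_co.Build
import Pool.Agent.Lib_MP_d3eb25_co.Flag
import Pool.Agent.Lib_MP_d3eb25_co.Ideal
import Pool.Agent.Lib_MP_d3eb25_co.Gamma

/-!
MP_d3eb25_co: the gamma vector of the Chow polynomial of a flag built lattice need not be the
face vector of a flag simplicial complex, nor of any simplicial complex.
-/

namespace Pool.Agent.Results.MP_d3eb25_co.GammaNotFaceVector

open Pool.Agent.FlagChow

/-- There is a flag built lattice (a loopless matroid `M` of rank 7 on 8 elements with a flag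
building set `𝒢` containing the top flat) such that the Chow polynomial has gamma vector
`(1, 5, 2, 1)`, and the gamma vector is not the face vector of any simplicial complex. -/
theorem result :
    ∃ (M : Matroid (Fin 8)) (𝒢 : Set (Set (Fin 8))),
      M.Loopless ∧ M.eRank = 7 ∧ IsFlagBuildingSet M 𝒢 ∧ M.E ∈ 𝒢 ∧
      IsGammaVector (chowSeries M 𝒢) 6 (fun i => [1, 5, 2, 1].getD i 0) ∧
      ∀ γ : ℕ → ℤ, IsGammaVector (chowSeries M 𝒢) 6 γ →
        ∀ (V : Type*) (Δ : Complex V), (fun i => (Δ.fvec i : ℤ)) ≠ γ := by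
  have hs : chowSeries exM exG = PowerSeries.mk fun k => (hh k : ℤ) := by
    unfold chowSeries
    congr 1
    funext k
    rw [hilbert_ex_of exM_E exM_closure (ex_nested_pair' exM_closure) (ex_flag' exM_closure),
      le_antisymm (upper k) (lower k)]
  refine ⟨exM, exG, exM_loopless, exM_eRank, ⟨ex_building, ex_flag' exM_closure⟩, ?_, ?_, ?_⟩
  · rw [exM_E]
    exact ⟨18, by ext x; fin_cases x <;> simp [gs]⟩
  · rw [hs]; exact hh_gamma
  · intro γ hγ V Δ
    rw [hs] at hγ
    rw [gamma_unique γ hγ]
    exact not_fvec Δ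

end Pool.Agent.Results.MP_d3eb25_co.GammaNotFaceVector
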